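import Pool.Agent.MP_41ff67_pr.Final

set_option autoImplicit false

open MeasureTheory ProbabilityTheory Filter Metric
open scoped ENNReal NNReal Topology Pointwise

namespace Pool.Agent.Results.MP_41ff67_pr.StarShapes

open Pool.Agent.MP_41ff67_pr

/-- For every `d ≥ 2` there is an admissible set `K` (compact, Lipschitz boundary, neighbourhood of
`0`, boundary meeting each ray from `0` exactly once), even a convex one, that is not the limit
shape of the `f`-weighted model for any `α < 1` and any `α`-weight function `f`; this holds for the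
norm `μ` of the Eden model and, with the same `K`, for every norm with the symmetries of `ℤ^d`.
For `d = 1` every admissible set is such a limit shape. -/
theorem result :
    (∀ d : ℕ, 2 ≤ d → ∃ K : Set (E d), IsAdmissible K ∧ Convex ℝ K ∧
      ∀ μ : Seminorm ℝ (E d), IsEdenNorm μ ∨ IsSymmetricNorm μ →
        ∀ α : ℝ, α < 1 → ∀ f : E d → ℝ, IsWeight α f → weightedShape μ f ≠ K) ∧
    (∀ μ : Seminorm ℝ (E 1), IsEdenNorm μ → ∀ K : Set (E 1), IsAdmissible K →
      ∃ (α : ℝ) (f : E 1 → ℝ), α < 1 ∧ IsWeight α f ∧ weightedShape μ f = K) :=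
  ⟨fun _ hd => final_neg hd, fun _ hμ K hK => dim_one hμ.1 K hK⟩

end Pool.Agent.Results.MP_41ff67_pr.StarShapes
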